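import Pool.Agent.E8helper67.KH.Extract

/-!
The maximum number of `k`-holes of an `n`-point set without `(k+1)`-holes is not bounded by
a constant times `n ^ ⌈k/3⌉`; the exponent `k/2` of the known upper bound is asymptotically correct.
-/

set_option autoImplicit false

open Filter Set
open scoped Topology

namespace Pool.Agent.Results.MP_c993ab_co.ManyHolesH67

/-- general position: no three points on a line -/
def GenPos (P : Finset (ℝ × ℝ)) : Prop :=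
  ∀ a ∈ P, ∀ b ∈ P, ∀ c ∈ P, a ≠ b → a ≠ c → b ≠ c → ¬ Collinear ℝ ({a, b, c} : Set (ℝ × ℝ))

/-- convex position: no point lies in the convex hull of the others -/
def ConvexPos (X : Finset (ℝ × ℝ)) : Prop :=
  ∀ x ∈ X, x ∉ convexHull ℝ ((X : Set (ℝ × ℝ)) \ {x})

/-- `X` is a `k`-hole of `P` -/
def IsHole (k : ℕ) (P X : Finset (ℝ × ℝ)) : Prop :=
  X ⊆ P ∧ X.card = k ∧ ConvexPos X ∧
    Disjoint (interior (convexHull ℝ (X : Set (ℝ × ℝ)))) (P : Set (ℝ × ℝ))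

/-- the number of `k`-holes of `P` -/
noncomputable def numHoles (k : ℕ) (P : Finset (ℝ × ℝ)) : ℕ := {X : Finset (ℝ × ℝ) | IsHole k P X}.ncard

/-- `hmax k n`: the largest number of `k`-holes of a set of at most `n` points in general position
without `(k+1)`-holes -/
noncomputable def hmax (k n : ℕ) : ℕ :=
  sSup {N : ℕ | ∃ P : Finset (ℝ × ℝ), GenPos P ∧ P.card ≤ n ∧ (∀ X, ¬ IsHole (k + 1) P X) ∧
    numHoles k P = N}

lemma holes_finite (k : ℕ) (P : Finset (ℝ × ℝ)) :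
    {X : Finset (ℝ × ℝ) | IsHole k P X} ⊆ (P.powerset : Set (Finset (ℝ × ℝ))) := by
  intro X hX
  rw [Finset.mem_coe, Finset.mem_powerset]
  exact hX.1

lemma numHoles_le (k : ℕ) (P : Finset (ℝ × ℝ)) : numHoles k P ≤ 2 ^ P.card := by
  unfold numHoles
  refine (Set.ncard_le_ncard (holes_finite k P) (Finset.finite_toSet _)).trans ?_
  rw [Set.ncard_coe_finset, Finset.card_powerset]

lemma le_hmax {k n : ℕ} {P : Finset (ℝ × ℝ)} (h1 : GenPos P) (h2 : P.card ≤ n)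
    (h3 : ∀ X, ¬ IsHole (k + 1) P X) : numHoles k P ≤ hmax k n := by
  unfold hmax
  apply le_csSup
  · refine ⟨2 ^ n, ?_⟩
    rintro N ⟨P', _, hc, _, rfl⟩
    exact (numHoles_le k P').trans (Nat.pow_le_pow_right (by norm_num) hc)
  · exact ⟨P, h1, h2, h3, rfl⟩

/-- the lower bound obtained from the point sets -/
lemma hmax_ge {T R s u₁ u₂ k n : ℕ} (h1 : 54 ^ (T + 1) ≤ u₁) (h2 : 54 ^ (T + 1) ≤ u₂)
    (hk : k = u₁ + u₂ + 2 * s) (hn : u₁ + u₂ + s * ((T + 1) * (R + 1) ^ (T + 3)) ≤ n) :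
    ((R + 1) ^ (T + 1) - 1) ^ s ≤ hmax k n := by
  classical
  obtain ⟨P, hP1, hP2, hP3, F, hF1, hF2⟩ := Pool.Agent.E8helper67.KH.exists_set T R s u₁ u₂ h1 h2
  refine le_trans ?_ (le_hmax (k := k) hP1 (hP2.trans hn) ?_)
  · have hsub : ((Finset.univ.image F : Finset (Finset (ℝ × ℝ))) : Set (Finset (ℝ × ℝ))) ⊆
        {X : Finset (ℝ × ℝ) | IsHole k P X} := by
      intro X hX
      obtain ⟨a, _, rfl⟩ := Finset.mem_image.1 (Finset.mem_coe.1 hX)
      obtain ⟨g1, g2, g3, g4⟩ := hF2 a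
      exact ⟨g1, by rw [g2, hk], g3, g4⟩
    have h3 := Set.ncard_le_ncard hsub ((Finset.finite_toSet _).subset (holes_finite k P))
    rw [Set.ncard_coe_finset, Finset.card_image_of_injective _ hF1, Finset.card_univ,
      Fintype.card_fun, Fintype.card_fin, Fintype.card_fin] at h3
    exact h3
  · rintro X ⟨g1, g2, _, g4⟩
    obtain ⟨z, hz1, hz2⟩ := hP3 X g1 (by omega)
    exact Set.disjoint_left.1 g4 hz2 (Finset.mem_coe.2 hz1)

/-- growth for an exponent in `(0, 1/2)` -/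
lemma growth {β : ℝ} (h0 : 0 ≤ β) (hβ : β < 1 / 2) : ∃ K : ℕ, ∀ k : ℕ, K ≤ k → ∀ C : ℝ,
    ∃ n0 : ℕ, ∀ n : ℕ, n0 ≤ n → C * (n : ℝ) ^ (β * k) ≤ hmax k n := by
  classical
  -- number of levels
  obtain ⟨T, hT⟩ : ∃ T : ℕ, (T + 3 : ℝ) * β < (T + 1 : ℝ) / 2 := by
    obtain ⟨T, hT⟩ := exists_nat_gt (3 / (1 / 2 - β))
    refine ⟨T, ?_⟩
    have h2 : 0 < 1 / 2 - β := by linarith
    rw [div_lt_iff₀ h2] at hT
    nlinarith
  set h : ℕ := 54 ^ (T + 1) with hh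
  obtain ⟨K1, hK1⟩ := exists_nat_gt (((T + 1 : ℝ) * (2 * h + 1) / 2) / ((T + 1 : ℝ) / 2 - (T + 3 : ℝ) * β))
  refine ⟨max K1 (2 * h + 2), fun k hk C => ?_⟩
  set s : ℕ := (k - 2 * h) / 2 with hs
  have hkh : 2 * h + 2 ≤ k := (le_max_right _ _).trans hk
  have hs2 : 2 * s ≤ k - 2 * h := by omega
  have hs3 : k ≤ 2 * s + 2 * h + 1 := by omega
  have hs1 : 1 ≤ s := by omega
  -- the exponent gain
  set η : ℝ := (T + 1 : ℝ) * s - (T + 3 : ℝ) * (β * k) with hη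
  have hη0 : 0 < η := by
    have hd : 0 < (T + 1 : ℝ) / 2 - (T + 3 : ℝ) * β := by linarith
    rw [div_lt_iff₀ hd] at hK1
    have hkK : (K1 : ℝ) ≤ k := by exact_mod_cast (le_max_left _ _).trans hk
    have e1 : (k : ℝ) ≤ 2 * s + 2 * h + 1 := by exact_mod_cast hs3
    have e2 : (T + 1 : ℝ) * (2 * h + 1) / 2 < k * ((T + 1 : ℝ) / 2 - (T + 3 : ℝ) * β) :=
      hK1.trans_le (mul_le_mul_of_nonneg_right hkK hd.le)
    have hT0 : (0:ℝ) ≤ T := by positivity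
    rw [hη]
    nlinarith
  set D : ℕ := s * (T + 1) + k with hD
  have hD1 : 1 ≤ D := by omega
  set c : ℝ := 1 / (2 ^ s * ((D : ℝ) * 2 ^ (T + 3)) ^ (β * k)) with hc
  have hDr : (1:ℝ) ≤ D := by exact_mod_cast hD1
  have hc0 : 0 < c := by positivity
  -- the threshold
  have htend : Tendsto (fun x : ℕ => (x : ℝ) ^ η) atTop atTop :=
    (tendsto_rpow_atTop hη0).comp tendsto_natCast_atTop_atTop
  obtain ⟨x0, hx0⟩ := (htend.eventually_ge_atTop (|C| / c)).exists_forall_of_atTop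
  set x1 : ℕ := max x0 2 with hx1
  refine ⟨D * x1 ^ (T + 3), fun n hn => ?_⟩
  set x : ℕ := Nat.findGreatest (fun x => D * x ^ (T + 3) ≤ n) n with hx
  have hx1n : x1 ≤ n := by
    refine le_trans ?_ hn
    calc x1 = 1 * x1 ^ 1 := by ring
      _ ≤ D * x1 ^ (T + 3) := Nat.mul_le_mul hD1 (Nat.pow_le_pow_right (by omega) (by omega))
  have hxx1 : x1 ≤ x := Nat.le_findGreatest hx1n hn
  have hxn : D * x ^ (T + 3) ≤ n :=
    Nat.findGreatest_spec (P := fun x => D * x ^ (T + 3) ≤ n) hx1n hn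
  have hxn' : n < D * (x + 1) ^ (T + 3) := by
    by_contra hcon
    rw [not_lt] at hcon
    have h3 : x + 1 ≤ n := by
      refine le_trans ?_ hcon
      calc x + 1 = 1 * (x + 1) ^ 1 := by ring
        _ ≤ D * (x + 1) ^ (T + 3) := Nat.mul_le_mul hD1 (Nat.pow_le_pow_right (by omega) (by omega))
    have h4 : x + 1 ≤ x := Nat.le_findGreatest (P := fun x => D * x ^ (T + 3) ≤ n) h3 hcon
    omega
  have hx2 : 2 ≤ x := (le_max_right _ _).trans hxx1
  have hx0' : x0 ≤ x := (le_max_left _ _).trans hxx1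
  -- lower bound for the number of holes
  have hlow : (x ^ (T + 1) - 1) ^ s ≤ hmax k n := by
    have hR : x - 1 + 1 = x := by omega
    have := hmax_ge (T := T) (R := x - 1) (s := s) (u₁ := h) (u₂ := k - 2 * s - h) (k := k) (n := n)
      le_rfl (by omega) (by omega) (by
        rw [hR]
        refine le_trans ?_ hxn
        rw [hD]
        have h5 : 1 ≤ x ^ (T + 3) := Nat.one_le_pow _ _ (by omega)
        have h6 : k ≤ k * x ^ (T + 3) := Nat.le_mul_of_pos_right _ h5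
        calc h + (k - 2 * s - h) + s * ((T + 1) * x ^ (T + 3)) ≤ k * x ^ (T + 3) +
              s * ((T + 1) * x ^ (T + 3)) := by omega
          _ = (s * (T + 1) + k) * x ^ (T + 3) := by ring)
    rwa [hR] at this
  have hxr : (2:ℝ) ≤ x := by exact_mod_cast hx2
  have hxp : (0:ℝ) < x := by linarith
  have h7 : ((x : ℝ) ^ (T + 1) / 2) ^ s ≤ (hmax k n : ℝ) := by
    have h8 : (((x ^ (T + 1) - 1) ^ s : ℕ) : ℝ) ≤ (hmax k n : ℝ) := by exact_mod_cast hlow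
    refine le_trans ?_ h8
    have h9 : 1 ≤ x ^ (T + 1) := Nat.one_le_pow _ _ (by omega)
    rw [Nat.cast_pow, Nat.cast_sub h9]
    push_cast
    apply pow_le_pow_left₀ (by positivity)
    have h10 : (2:ℝ) ≤ (x:ℝ) ^ (T + 1) := by
      calc (2:ℝ) ≤ x := hxr
        _ = (x:ℝ) ^ 1 := (pow_one _).symm
        _ ≤ (x:ℝ) ^ (T + 1) := pow_le_pow_right₀ (by linarith) (by omega)
    linarith
  have h8 : (n : ℝ) ^ (β * k) ≤ ((D : ℝ) * 2 ^ (T + 3)) ^ (β * k) * (x : ℝ) ^ ((T + 3 : ℝ) * (β * k)) := by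
    have h9 : (n : ℝ) ≤ ((D : ℝ) * 2 ^ (T + 3)) * (x : ℝ) ^ (T + 3) := by
      have h10 : (n : ℝ) ≤ (D : ℝ) * ((x : ℝ) + 1) ^ (T + 3) := by exact_mod_cast hxn'.le
      refine h10.trans ?_
      rw [mul_assoc, ← mul_pow]
      apply mul_le_mul_of_nonneg_left _ (by positivity)
      apply pow_le_pow_left₀ (by positivity)
      linarith
    have hbk : 0 ≤ β * k := by positivity
    calc (n : ℝ) ^ (β * k) ≤ (((D : ℝ) * 2 ^ (T + 3)) * (x : ℝ) ^ (T + 3)) ^ (β * k) :=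
          Real.rpow_le_rpow (by positivity) h9 hbk
      _ = ((D : ℝ) * 2 ^ (T + 3)) ^ (β * k) * ((x : ℝ) ^ (T + 3)) ^ (β * k) :=
          Real.mul_rpow (by positivity) (by positivity)
      _ = _ := by
        congr 1
        rw [← Real.rpow_natCast (x : ℝ) (T + 3), ← Real.rpow_mul hxp.le]
        push_cast
        rfl
  have h9 : ((x : ℝ) ^ (T + 1) / 2) ^ s = (x : ℝ) ^ ((T + 1 : ℝ) * s) / 2 ^ s := by
    rw [div_pow, ← pow_mul, ← Real.rpow_natCast (x : ℝ) ((T + 1) * s)]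
    push_cast
    rfl
  have h10 : (x : ℝ) ^ ((T + 1 : ℝ) * s) = (x : ℝ) ^ η * (x : ℝ) ^ ((T + 3 : ℝ) * (β * k)) := by
    rw [← Real.rpow_add hxp, hη]
    congr 1
    ring
  have h11 : |C| / c ≤ (x : ℝ) ^ η := hx0 x hx0'
  rw [div_le_iff₀ hc0] at h11
  set W := ((D : ℝ) * 2 ^ (T + 3)) ^ (β * k) with hW
  have hW0 : 0 < W := by positivity
  set Y := (x : ℝ) ^ ((T + 3 : ℝ) * (β * k)) with hY
  have hY0 : 0 < Y := by positivity
  calc C * (n : ℝ) ^ (β * k) ≤ |C| * (n : ℝ) ^ (β * k) :=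
        mul_le_mul_of_nonneg_right (le_abs_self _) (by positivity)
    _ ≤ |C| * (W * Y) := mul_le_mul_of_nonneg_left h8 (abs_nonneg _)
    _ ≤ ((x : ℝ) ^ η * c) * (W * Y) := mul_le_mul_of_nonneg_right h11 (by positivity)
    _ = (x : ℝ) ^ η * Y / 2 ^ s := by
      rw [hc]
      field_simp
    _ = ((x : ℝ) ^ (T + 1) / 2) ^ s := by rw [h9, h10]
    _ ≤ hmax k n := h7

/-- The conjectured bound `h_k(n) = O(n ^ ⌈k/3⌉)` for all `k ≥ 6` is false. More precisely, for every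
`β < 1/2` and all sufficiently large `k` one has `h_k(n) / n ^ (β k) → ∞`. -/
theorem result :
    (¬ ∀ k : ℕ, 6 ≤ k → ∃ C : ℝ, ∀ n : ℕ, 1 ≤ n → (hmax k n : ℝ) ≤ C * (n : ℝ) ^ ⌈(k : ℝ) / 3⌉₊) ∧
    ∀ β : ℝ, β < 1 / 2 → ∃ K : ℕ, ∀ k : ℕ, K ≤ k →
      Tendsto (fun n : ℕ => (hmax k n : ℝ) / (n : ℝ) ^ (β * k)) atTop atTop := by
  have strong : ∀ β : ℝ, β < 1 / 2 → ∃ K : ℕ, ∀ k : ℕ, K ≤ k →
      Tendsto (fun n : ℕ => (hmax k n : ℝ) / (n : ℝ) ^ (β * k)) atTop atTop := by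
    intro β hβ
    obtain ⟨K, hK⟩ := growth (β := max β 0) (le_max_right _ _) (max_lt hβ (by norm_num))
    refine ⟨K, fun k hk => ?_⟩
    rw [tendsto_atTop]
    intro C
    obtain ⟨n0, hn0⟩ := hK k hk |C|
    filter_upwards [eventually_ge_atTop (max n0 1)] with n hn
    have h1 := hn0 n ((le_max_left _ _).trans hn)
    have hn1 : (1:ℝ) ≤ n := by exact_mod_cast (le_max_right _ _).trans hn
    have hpos : 0 < (n : ℝ) ^ (β * k) := Real.rpow_pos_of_pos (by linarith) _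
    rw [le_div_iff₀ hpos]
    have h2 : (n : ℝ) ^ (β * k) ≤ (n : ℝ) ^ (max β 0 * k) := by
      apply Real.rpow_le_rpow_of_exponent_le hn1
      exact mul_le_mul_of_nonneg_right (le_max_left _ _) (by positivity)
    calc C * (n : ℝ) ^ (β * k) ≤ |C| * (n : ℝ) ^ (β * k) :=
          mul_le_mul_of_nonneg_right (le_abs_self _) hpos.le
      _ ≤ |C| * (n : ℝ) ^ (max β 0 * k) := mul_le_mul_of_nonneg_left h2 (abs_nonneg _)
      _ ≤ hmax k n := h1
  refine ⟨?_, strong⟩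
  intro hcon
  obtain ⟨K, hK⟩ := strong (5 / 12) (by norm_num)
  set k := max K 12 with hk
  have hk12 : 12 ≤ k := le_max_right _ _
  obtain ⟨C, hC⟩ := hcon k (by omega)
  have ht := hK k (le_max_left _ _)
  rw [tendsto_atTop] at ht
  obtain ⟨n, hn1, hn2⟩ := ((ht (|C| + 1)).and (eventually_ge_atTop 1)).exists
  have h1 := hC n hn2
  have hn1' : (1:ℝ) ≤ n := by exact_mod_cast hn2
  have hpos : 0 < (n : ℝ) ^ (5 / 12 * (k:ℝ)) := Real.rpow_pos_of_pos (by linarith) _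
  rw [le_div_iff₀ hpos] at hn1
  have hkr : (12:ℝ) ≤ k := by exact_mod_cast hk12
  have h3 : ((⌈(k : ℝ) / 3⌉₊ : ℕ) : ℝ) ≤ 5 / 12 * (k:ℝ) := by
    have h4 := (Nat.ceil_lt_add_one (show (0:ℝ) ≤ (k:ℝ) / 3 by positivity)).le
    linarith
  have h4 : (n : ℝ) ^ ⌈(k : ℝ) / 3⌉₊ ≤ (n : ℝ) ^ (5 / 12 * (k:ℝ)) := by
    rw [← Real.rpow_natCast]
    exact Real.rpow_le_rpow_of_exponent_le hn1' h3
  have h5 : C * (n : ℝ) ^ ⌈(k : ℝ) / 3⌉₊ ≤ |C| * (n : ℝ) ^ (5 / 12 * (k:ℝ)) := by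
    calc _ ≤ |C| * (n : ℝ) ^ ⌈(k : ℝ) / 3⌉₊ := mul_le_mul_of_nonneg_right (le_abs_self _) (by positivity)
      _ ≤ _ := mul_le_mul_of_nonneg_left h4 (abs_nonneg _)
  nlinarith

end Pool.Agent.Results.MP_c993ab_co.ManyHolesH67
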